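import Pool.Agent.Helper27.BI.S5.Geo5

/-!
# Project BI, stage 5, module E1 (the embedding of the complement of the two walls and the two arcs)
-/

set_option autoImplicit false
set_option linter.unusedSectionVars false

open scoped Manifold ContDiff Topology ComplexConjugate
open Set Filter Pool.Agent.Helper65.Barb Pool.Agent.Helper18.BI
open Pool.Agent.Helper70.BI (I4 LD ld_iff ld_comp contDiff_dfam contDiff_dfam_inv)
open Pool.Agent.Helper34.BI (rade)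
open Pool.Agent.Helper27.BI (e1)
open Pool.Agent.Helper27.H

namespace Pool.Agent.Helper27.S5

namespace E1

/-- the closed set removed: the two walls and the two arcs -/
def BB (δ κ β c a b : ℝ) (D : ArcD) : Set R4 :=
  (wallS δ ∪ wall2 δ κ β) ∪ ({p | p.1 ∈ Icc D.s₀ D.s₁ ∧ p.2 = z0 p.1} ∪
    {p | p.1 ∈ Icc a b ∧ p.2 = z2 c β p.1})

theorem continuous_step' : Continuous step := by
  unfold Pool.Agent.Helper65.Barb.step
  exact Real.smoothTransition.continuous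

theorem continuous_lam (c : ℝ) : Continuous (lam c) := by
  unfold lam
  have h := continuous_step'
  exact continuous_const.sub (continuous_const.mul
    ((h.comp (by fun_prop : Continuous fun s : ℝ => (s - 7 / 20) / (2 / 25))).mul
      (h.comp (by fun_prop : Continuous fun s : ℝ => (13 / 20 - s) / (2 / 25)))))

theorem continuous_z2 (c β : ℝ) : Continuous (z2 c β) := by
  unfold z2
  exact contDiff_z0.continuous.add
    (((continuous_lam c).mul continuous_const).smul continuous_const)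

theorem isClosed_BB (δ κ β c a b : ℝ) (D : ArcD) : IsClosed (BB δ κ β c a b D) := by
  refine ((Geo.isClosed_wallS δ).union (Geo.isClosed_wall2 δ κ β)).union (IsClosed.union ?_ ?_)
  · have h : Continuous fun p : R4 => z0 p.1 := contDiff_z0.continuous.comp continuous_fst
    exact (isClosed_Icc.preimage continuous_fst).inter (isClosed_eq continuous_snd h)
  · have h : Continuous fun p : R4 => z2 c β p.1 := (continuous_z2 c β).comp continuous_fst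
    exact (isClosed_Icc.preimage continuous_fst).inter (isClosed_eq continuous_snd h)

theorem rsq_z0 (s : ℝ) : rsq 1 (s, z0 s) = bfin s ^ 2 := by
  rw [Geo.rsq1, Geo.z0_def]
  simp

/-- the region -/
abbrev RR (δ κ β : ℝ) : Set R4 := Reg δ \ hol δ κ β

/-- the model map -/
noncomputable abbrev hm (H : DFam 𝓘(ℝ, R4) R4) (δ κ β : ℝ) (p : R4) : R4 :=
  rade δ 1 (rad2 δ κ β (H.g (1, p)))

section
variable {G T T' : R4 → R4} {δ δ' κ β c : ℝ} {D D' : ArcD} {H : DFam 𝓘(ℝ, R4) R4} {a b : ℝ}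
  (hS : Sys G T T' δ δ' κ β c D D' H a b)
include hS

theorem far {p : R4} (hp : p ∈ RR δ' κ β \ BB δ' κ β c a b D') : 1 / 25 - δ' < rsq 1 p := by
  by_contra h
  push Not at h
  exact hp.2 (Or.inl (Or.inl ⟨hp.1.1.1, hp.1.1.2.1, hp.1.1.2.2.1, h⟩))

theorem far2 {p : R4} (hp : p ∈ RR δ' κ β \ BB δ' κ β c a b D') :
    1 / 25 - δ' < rsq 1 (sgi κ β p) := by
  by_contra h
  push Not at h
  have h1 : 1 / 25 - 3 * δ' ≤ rsq 1 (sgi κ β p) := by
    by_contra h2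
    exact hp.1.2 ⟨hp.1.1.1, hp.1.1.2.1, not_le.1 h2⟩
  exact hp.2 (Or.inl (Or.inr ⟨hp.1.1.1, hp.1.1.2.1, h1, h⟩))

theorem pos1 {p : R4} (hp : p ∈ RR δ' κ β \ BB δ' κ β c a b D') :
    0 < rsq 1 (H.g (1, p)) := by
  rw [Geo.rsq1_pos_iff]
  intro h
  have h1 : H.g (1, p) = ((H.g (1, p)).1, e1) := Prod.ext rfl h
  have h2 := Geo.H_e1 hS.th h1
  set s := (H.g (1, p)).1
  have h3 := far hS hp
  rw [h2, rsq_z0] at h3
  have h4 : s ∈ Ioo D'.s₀ D'.s₁ := by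
    by_contra h5
    exact absurd (hS.hat'.b' s h5) (not_le.2 h3)
  exact hp.2 (Or.inr (Or.inl ⟨by rw [h2]; exact ⟨h4.1.le, h4.2.le⟩, by rw [h2]⟩))

theorem pos2 {p : R4} (hp : p ∈ RR δ' κ β \ BB δ' κ β c a b D') :
    0 < rsq 1 (sgi κ β (H.g (1, p))) := by
  rw [Geo.sgi_pos_iff hS.par.k0]
  intro h
  have h1 : H.g (1, p) = ((H.g (1, p)).1, P2 β) := Prod.ext rfl h
  set s := (H.g (1, p)).1
  have h2 : p = (s, z2 c β s) := by
    rw [← Geo.H_P2 hS.th hS.par s, ← h1, H.fg]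
  have h3 := far2 hS hp
  have h4 : s ∈ Icc a b := by
    by_contra h5
    have h6 := Geo.H_P2_out hS.th hS.par hS.mc (Geo.hδ' hS.par) hS.ab h5
    rw [← h2] at h6
    exact absurd h6 (not_le.2 h3)
  exact hp.2 (Or.inr (Or.inr ⟨by rw [h2]; exact h4, by rw [h2]⟩))

/-- the image under `rad2` is off the line over `e1` -/
theorem pos3 {q : R4} (h1 : 0 < rsq 1 q) (h2 : 0 < rsq 1 (sgi κ β q)) :
    0 < rsq 1 (rad2 δ' κ β q) := by
  have k0 := hS.par.k0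
  have d' := Geo.hδ' hS.par
  rcases le_or_gt (1 / 25 - δ') (rsq 1 (sgi κ β q)) with h | h
  · rw [Geo.rad2_fix d' k0 β h]
    exact h1
  · have h5 := Geo.rad2_le d' k0 β h2 h.le
    have h6 := Geo.rsq_lo hS.par (Geo.near_of hS.par (p := rad2 δ' κ β q) (by linarith [d'.1]))
    linarith [d'.2]

theorem le3 {q : R4} (h1 : rsq 1 q ≤ 49 / 100) (h2 : 0 < rsq 1 (sgi κ β q)) :
    rsq 1 (rad2 δ' κ β q) ≤ 49 / 100 := by
  have k0 := hS.par.k0
  have d' := Geo.hδ' hS.par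
  rcases le_or_gt (1 / 25 - δ') (rsq 1 (sgi κ β q)) with h | h
  · rw [Geo.rad2_fix d' k0 β h]
    exact h1
  · have h5 := Geo.rad2_le d' k0 β h2 h.le
    have h6 := Geo.rsq_hi hS.par (Geo.near_of hS.par (p := rad2 δ' κ β q) (by linarith [d'.1]))
    linarith [hS.par.d0]

theorem maps : MapsTo (hm H δ' κ β) (RR δ' κ β \ BB δ' κ β c a b D') (RR δ' κ β) := by
  intro p hp
  have d' := Geo.hδ' hS.par
  obtain ⟨h1, h2, h3⟩ := Geo.H_reg_g hS.th (t := 1) hp.1.1.1 hp.1.1.2.1 hp.1.1.2.2.2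
  have h4 := pos1 hS hp
  have h5 := pos2 hS hp
  have h6 := pos3 hS h4 h5
  have h7 := le3 hS h3 h5
  have h8 := Geo.rad2_low d' hS.par.k0 β h5
  refine ⟨⟨h1, h2, Geo.rade_low' d' h6, ?_⟩, ?_⟩
  · rcases le_or_gt (1 / 25 - δ') (rsq 1 (rad2 δ' κ β (H.g (1, p)))) with h | h
    · show rsq 1 (rade δ' 1 (rad2 δ' κ β (H.g (1, p)))) ≤ _
      rw [Geo.rade_fix d' h]
      exact h7
    · have := Geo.rade_lt d' h6 h
      show rsq 1 (rade δ' 1 (rad2 δ' κ β (H.g (1, p)))) ≤ _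
      linarith [d'.1]
  · rintro ⟨-, -, h9⟩
    have h9' : rsq 1 (sgi κ β (rade δ' 1 (rad2 δ' κ β (H.g (1, p))))) < 1 / 25 - 3 * δ' := h9
    rcases le_or_gt (1 / 25 - δ') (rsq 1 (rad2 δ' κ β (H.g (1, p)))) with h | h
    · rw [Geo.rade_fix d' h] at h9'
      exact absurd h8 (not_le.2 h9')
    · have h10 := Geo.rade_lt d' h6 h
      have h11 := Geo.rsq_lo hS.par (Geo.near_of hS.par
        (p := rade δ' 1 (rad2 δ' κ β (H.g (1, p)))) (by linarith [d'.1]))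
      linarith

theorem ld {p : R4} (hp : p ∈ RR δ' κ β \ BB δ' κ β c a b D') : LD (hm H δ' κ β) p := by
  have d' := Geo.hδ' hS.par
  have hf : ContDiff ℝ ∞ (fun q : R4 => H.f (1, q)) :=
    (contDiff_dfam H).comp (contDiff_prodMk_right (1 : ℝ))
  have hg : ContDiff ℝ ∞ (fun q : R4 => H.g (1, q)) :=
    (contDiff_dfam_inv H).comp (contDiff_prodMk_right (1 : ℝ))
  have l1 : LD (fun q : R4 => H.g (1, q)) p :=
    Geo.ld_of_inv hg hf (fun x => H.fg 1 x) (fun x => H.gf 1 x) p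
  have l2 : LD (rad2 δ' κ β ∘ fun q : R4 => H.g (1, q)) p :=
    ld_comp (F := rad2 δ' κ β) (m := fun q : R4 => H.g (1, q)) l1
      ((Geo.rad2_emb d' hS.par.k0 β).1 _ (pos2 hS hp))
  exact ld_comp (F := rade δ' 1) (m := rad2 δ' κ β ∘ fun q : R4 => H.g (1, q)) l2
    ((rade_emb d').1 _ (pos3 hS (pos1 hS hp) (pos2 hS hp)))

theorem inj : InjOn (hm H δ' κ β) (RR δ' κ β \ BB δ' κ β c a b D') := by
  intro p hp q hq h
  have d' := Geo.hδ' hS.par
  have h1 := (rade_emb d').2 (pos3 hS (pos1 hS hp) (pos2 hS hp))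
    (pos3 hS (pos1 hS hq) (pos2 hS hq)) h
  have h2 := (Geo.rad2_emb d' hS.par.k0 β).2 (pos2 hS hp) (pos2 hS hq) h1
  rw [← H.fg 1 p, h2, H.fg]

theorem front {p : R4} (hp : p ∈ RR δ' κ β \ BB δ' κ β c a b D') :
    ∀ᶠ q in 𝓝 p, q ∉ RR δ' κ β → hm H δ' κ β q = q := by
  have d' := Geo.hδ' hS.par
  have h1 : ∀ᶠ q : R4 in 𝓝 p, 1 / 25 - δ' < rsq 1 q :=
    Geo.continuous_rsq1.continuousAt.eventually (Ioi_mem_nhds (far hS hp))
  have h2 : ∀ᶠ q : R4 in 𝓝 p, 1 / 25 - δ' < rsq 1 (sgi κ β q) :=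
    (Geo.continuous_rsq_sgi κ β).continuousAt.eventually (Ioi_mem_nhds (far2 hS hp))
  filter_upwards [h1, h2] with q hq1 hq2 hqR
  have h3 : q ∉ hol δ' κ β := fun h => absurd h.2.2 (not_lt.2 (by linarith [d'.1]))
  have h4 : q.1 ≤ 1 / 20 ∨ 19 / 20 ≤ q.1 ∨ 49 / 100 ≤ rsq 1 q := by
    by_contra h
    push Not at h
    exact hqR ⟨⟨by linarith [h.1], by linarith [h.2.1], by linarith [d'.1], h.2.2.le⟩, h3⟩
  have h5 : H.g (1, q) = q := Geo.H_supp_g hS.th (t := 1) h4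
  show rade δ' 1 (rad2 δ' κ β (H.g (1, q))) = q
  rw [h5, Geo.rad2_fix d' hS.par.k0 β hq2.le, Geo.rade_fix d' hq1.le]

theorem sub : U2 G δ' κ β \ (D'.A ∪ A2 G H β a b) ⊆
    (G '' (RR δ' κ β ∩ BB δ' κ β c a b D'))ᶜ := by
  rintro y ⟨h1, h2⟩ ⟨p, ⟨-, (hp | (hp | hp))⟩, rfl⟩
  · exact h1 ⟨p, hp, rfl⟩
  · refine h2 (Or.inl ⟨(p.1, 0), ⟨hp.1.1, hp.1.2, rfl⟩, ?_⟩)
    rw [hS.hat'.J]
    show G (p.1, z0 p.1 + 0) = G p
    rw [add_zero, ← hp.2]
  · refine h2 (Or.inr ⟨(p.1, P2 β), ⟨rfl, hp.1.1, hp.1.2⟩, ?_⟩)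
    show G (H.f (1, (p.1, P2 β))) = G p
    rw [Geo.H_P2 hS.th hS.par, ← hp.2]

end

end E1

theorem m_E1 (hGH : StGH) : StE1 := by
  intro G T T' δ δ' κ β c D D' H a b hS
  have hG : EmbOn I4 G (E1.RR δ' κ β) :=
    Pool.Agent.Helper70.BI.EmbOn.mono' hS.emb (fun p hp => Geo.Reg_K3 hp.1)
  have h := hGH G (E1.hm H δ' κ β) (E1.RR δ' κ β) (E1.BB δ' κ β c a b D')
    (Geo.isCompact_Reg_hol δ' κ β) (E1.isClosed_BB δ' κ β c a b D') hG
    (fun p hp => E1.ld hS hp) (E1.inj hS) (E1.maps hS) (fun p hp => E1.front hS hp)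
  exact Pool.Agent.Helper70.BI.EmbOn.mono' h (E1.sub hS)

end Pool.Agent.Helper27.S5
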